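import Pool.Agent.H20.KBX.LDA
import Pool.Agent.H31.M5.Lag
import Pool.Agent.H35.K2S.Stab

/-!
# Board kslo, row FST: the F-step

A label `L` (a plank, a germ of a sheet ..) has for every time `θ` in `[0, 1]` a section whose
coefficients are polynomials of degree at most `K` in `θ`. If the digits of the section at the time
of the sample are known from the context `c` and the time, and the time gives little information
about the label, then the digits of all coefficients of the label are known from `c`: take `K + 1`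
samples, conditionally independent given the label.
-/

set_option autoImplicit false

namespace Pool.SLO.FST

open Finset Real
open Pool.Agent.H49.Ent Pool.Agent.H32.Dense Pool.STK Pool.KAF Pool.M5 Pool.K2S
open Pool.KBX (LDA.cp LDA.cp_law LDA.cp_fst LDA.cp_snd LDA.cp_eq)

section info

variable {Ω Λ Γ Θ S Ξ : Type} [Fintype Ω] {p : Ω → ℝ}

/-- The times of the copies are independent given the label. -/
theorem times_entropy (hp : IsLaw p) (L : Ω → Λ) (T : Ω → Θ) (n : ℕ) :
    n * CH p T L ≤ CH (LDA.cp p L n) (fun w i => T (w.2 i)) (fun w => w.1) := by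
  have h := mui_thm mul_thm Ω _ Θ n p (fun _ => L) hp (fun _ w => T w.2)
  have h1 : ∀ _ : Fin n, CH (dbl p L) (fun w => T w.2) (fun w => w.1) = CH p T L := by
    intro _
    rw [← CH_dbl_2 hp.nonneg T (fun ω : Ω => ω)]
    refine CH_congr (dbl_nonneg hp.nonneg) ?_ ?_ ?_ ?_
    · intro w w' _ _ hh
      simp only [Prod.mk.injEq] at hh
      exact hh.1
    · intro w w' _ _ hh
      simp only [Prod.mk.injEq] at hh
      exact hh.1
    · intro w w' a b hh
      simp only at hh
      have e1 := dbl_eq hp.nonneg a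
      have e2 := dbl_eq hp.nonneg b
      simp only [Prod.mk.injEq]
      exact ⟨by rw [← e1, ← e2, hh], hh⟩
    · intro w w' _ _ hh
      simp only [Prod.mk.injEq] at hh
      exact hh.2
  rw [Finset.sum_congr rfl fun r _ => h1 r] at h
  simp only [Finset.sum_const, Finset.card_univ, Fintype.card_fin, nsmul_eq_mul] at h
  exact h

/-- **The information part of the F-step.** -/
theorem info (hp : IsLaw p) (L : Ω → Λ) (c : Ω → Γ) (hc : Det p L c) (T : Ω → Θ) (D : Ω → S)
    (X : Ω → Ξ) (n : ℕ) :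
    CH p X c ≤ n * (CH p D (fun ω => (c ω, T ω)) + Pool.KVA.MI p T L c) +
      CH (LDA.cp p L n) (fun w => X w.1)
        (fun w => (c w.1, (fun i => T (w.2 i)), fun i => D (w.2 i))) := by
  classical
  set q := LDA.cp p L n with hq
  have hql : IsLaw q := LDA.cp_law hp L n
  have h0 := hql.nonneg
  have hfst : Marg q p (fun w => w.1) := LDA.cp_fst hp L n
  have hsnd : ∀ i, Marg q p (fun w => w.2 i) := fun i => LDA.cp_snd hp L n i
  set τ : Ω × (Fin n → Ω) → Fin n → Θ := fun w i => T (w.2 i) with hτ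
  set δ : Ω × (Fin n → Ω) → Fin n → S := fun w i => D (w.2 i) with hδ
  have hcc : ∀ w, 0 < q w → ∀ i, c (w.2 i) = c w.1 := by
    intro w hw i
    have h1 := LDA.cp_eq hp L n hw i
    exact hc _ _ h1.2 (hfst.pos h0 hw) h1.1
  -- step 1: the times
  have s1 : CH q (fun w => X w.1) (fun w => c w.1) = CH p X c := hfst.CH X c
  have s2 := Pool.KEND.info_symm h0 (fun w => X w.1) τ (fun w => c w.1)
  have s3 : CH q τ (fun w => w.1) ≤ CH q τ (fun w => (X w.1, c w.1)) := by
    refine CH_mono_cond h0 ?_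
    intro w w' _ _ hh
    simp only at hh ⊢
    rw [hh]
  have s4 : (n : ℝ) * CH p T L ≤ CH q τ (fun w => w.1) := times_entropy hp L T n
  have s5 : CH q τ (fun w => c w.1) ≤ n * CH p T c := by
    refine (Pool.KBX.LDA.CH_pi h0 (fun w : Ω × (Fin n → Ω) => c w.1) n (fun i w => T (w.2 i))).trans ?_
    have : ∀ i : Fin n, CH q (fun w => T (w.2 i)) (fun w => c w.1) = CH p T c := by
      intro i
      rw [← (hsnd i).CH T c]
      refine CH_congr h0 ?_ ?_ ?_ ?_
      · intro w w' _ _ hh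
        exact (Prod.ext_iff.mp hh).1
      · intro w w' _ _ hh
        exact (Prod.ext_iff.mp hh).1
      · intro w w' a b hh
        simp only at hh ⊢
        rw [hcc w a i, hcc w' b i, hh]
      · intro w w' a b hh
        simp only at hh ⊢
        rw [← hcc w a i, ← hcc w' b i, hh]
    rw [Finset.sum_congr rfl fun i _ => this i]
    simp
  have s6 : Pool.KVA.MI p T L c = CH p T c - CH p T L := by
    unfold Pool.KVA.MI
    rw [CH_chain hp.nonneg T L c]
    have : CH p T (fun ω => (L ω, c ω)) = CH p T L := by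
      refine CH_congr hp.nonneg ?_ ?_ ?_ ?_
      · intro w w' _ _ hh
        exact (Prod.ext_iff.mp hh).1
      · intro w w' _ _ hh
        exact (Prod.ext_iff.mp hh).1
      · intro w w' _ _ hh
        exact (Prod.ext_iff.mp hh).1
      · intro w w' a b hh
        exact Prod.ext hh (hc w w' a b hh)
    rw [this]
    ring
  -- step 2: the digits
  have s7 := CH_le_add h0 (fun w => X w.1) δ (fun w => (τ w, c w.1))
  have s8 : CH q δ (fun w => (τ w, c w.1)) ≤ n * CH p D (fun ω => (c ω, T ω)) := by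
    refine (Pool.KBX.LDA.CH_pi h0 (fun w : Ω × (Fin n → Ω) => (τ w, c w.1)) n
      (fun i w => D (w.2 i))).trans ?_
    have : ∀ i : Fin n, CH q (fun w => D (w.2 i)) (fun w => (τ w, c w.1)) ≤
        CH p D (fun ω => (c ω, T ω)) := by
      intro i
      rw [← (hsnd i).CH D (fun ω => (c ω, T ω))]
      refine CH_mono_cond h0 ?_
      intro w w' a b hh
      simp only [Prod.mk.injEq] at hh
      refine Prod.ext ?_ ?_
      · simp only
        rw [hcc w a i, hcc w' b i, hh.2]
      · exact congrFun hh.1 i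
    refine (Finset.sum_le_sum fun i _ => this i).trans (le_of_eq ?_)
    simp
  have s9 : CH q (fun w => X w.1) (fun w => (δ w, (τ w, c w.1))) =
      CH q (fun w => X w.1) (fun w => (c w.1, τ w, δ w)) := by
    refine CH_congr h0 ?_ ?_ ?_ ?_
    · intro w w' _ _ hh
      exact (Prod.ext_iff.mp hh).1
    · intro w w' _ _ hh
      exact (Prod.ext_iff.mp hh).1
    · intro w w' _ _ hh
      simp only [Prod.mk.injEq] at hh ⊢
      tauto
    · intro w w' _ _ hh
      simp only [Prod.mk.injEq] at hh ⊢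
      tauto
  rw [s6]
  rw [s9] at s7
  nlinarith only [s1, s2, s3, s4, s5, s7, s8]

end info

/-! ### Counting -/

section count

variable {Ω Λ Γ Θ ι : Type} [Fintype Ω] [Fintype ι] {p : Ω → ℝ}

/-- Two polynomials of degree at most `K` which are near at `K + 1` separated points of `[-1, 1]`
have near coefficients. -/
theorem coeff_near {K k₀ : ℕ} {θ : Fin (K + 1) → ℝ} (h0 : ∀ j, |θ j| ≤ 1)
    (hs : ∀ j j', j ≠ j' → (1 : ℝ) / 2 ^ k₀ ≤ |θ j - θ j'|) {A A' : Fin (K + 1) → ℝ} {M : ℝ}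
    (h : ∀ j, |∑ a, A a * θ j ^ (a : ℕ) - ∑ a, A' a * θ j ^ (a : ℕ)| ≤ M) (a : Fin (K + 1)) :
    |A a - A' a| ≤ (K + 1) * 2 ^ (K + k₀ * K) * M := by
  have hs' : ∀ j j', j ≠ j' → (2 : ℝ) ^ (-(k₀ : ℤ)) ≤ |θ j - θ j'| := by
    intro j j' hj
    have := hs j j' hj
    rwa [zpow_neg, zpow_natCast, ← one_div]
  have hinj : Function.Injective θ := by
    intro j j' hj
    by_contra hne
    have h1 := hs j j' hne
    rw [hj, sub_self, abs_zero] at h1
    have : (0 : ℝ) < 1 / 2 ^ k₀ := by positivity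
    linarith only [h1, this]
  have h1 := Pool.M5.L31.lag_pol hinj (fun a => A a - A' a) a
  have h2 : (fun j => ∑ a : Fin (K + 1), (A a - A' a) * θ j ^ (a : ℕ)) =
      fun j => ∑ a : Fin (K + 1), A a * θ j ^ (a : ℕ) - ∑ a : Fin (K + 1), A' a * θ j ^ (a : ℕ) := by
    funext j
    rw [← Finset.sum_sub_distrib]
    exact Finset.sum_congr rfl fun a _ => by ring
  rw [h2] at h1
  rw [← h1]
  exact Pool.M5.L31.lag_le h0 hs' h _

/-- Floors of near numbers. -/
theorem floor_near {x y M : ℝ} (h : |x - y| ≤ M) : |((⌊x⌋ - ⌊y⌋ : ℤ) : ℝ)| ≤ M + 1 := by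
  have h1 := Int.floor_le x
  have h2 := Int.lt_floor_add_one x
  have h3 := Int.floor_le y
  have h4 := Int.lt_floor_add_one y
  have h5 := abs_le.mp h
  push_cast
  rw [abs_le]
  constructor <;> linarith

open Classical in
/-- **The F-step**, general form: `G` is the event that the times `τ` of the copies are separated
by `2 ^ (-u τ)`. -/
theorem fst_core (hp : IsLaw p) (L : Ω → Λ) (c : Ω → Γ) (hc : Det p L c) (T : Ω → Θ) (th : Θ → ℝ)
    (D : Ω → ι → ℤ) (K : ℕ) (h : Λ → ι → Fin (K + 1) → ℝ) {R B C₁ : ℝ} (hR : 0 ≤ R)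
    (hth : ∀ ω, 0 < p ω → |th (T ω)| ≤ 1) (hB : ∀ ω, 0 < p ω → ∀ i a, |h (L ω) i a| ≤ B)
    (hD : ∀ ω, 0 < p ω → ∀ i, |(D ω i : ℝ) - R * ∑ a, h (L ω) i a * th (T ω) ^ (a : ℕ)| ≤ C₁)
    (G : (Fin (K + 1) → Θ) → Prop) (u : (Fin (K + 1) → Θ) → ℕ)
    (hG : ∀ τ, G τ → ∀ i j, i ≠ j → (1 : ℝ) / 2 ^ u τ ≤ |th (τ i) - th (τ j)|) :
    CH p (fun ω i a => ⌊R * h (L ω) i a⌋) c ≤
      (K + 1) * (CH p D (fun ω => (c ω, T ω)) + Pool.KVA.MI p T L c) +
      (Fintype.card ι * (K + 1)) * Ex (LDA.cp p L (K + 1)) (fun w =>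
        if G (fun i => T (w.2 i)) then
          Real.log (2 * ((K + 1) * 2 ^ (K + u (fun i => T (w.2 i)) * K) * (2 * C₁) + 1) + 1)
        else Real.log (2 * (2 * (R * B) + 1) + 1)) := by
  have h1 := info hp L c hc T D (fun ω i a => ⌊R * h (L ω) i a⌋) (K + 1)
  refine h1.trans ?_
  push_cast
  refine add_le_add le_rfl ?_
  set q := LDA.cp p L (K + 1) with hq
  have hql : IsLaw q := LDA.cp_law hp L (K + 1)
  have h0 := hql.nonneg
  have hfst : Marg q p (fun w => w.1) := LDA.cp_fst hp L (K + 1)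
  set e := Fintype.equivFin (ι × Fin (K + 1)) with he
  set X : Ω × (Fin (K + 1) → Ω) → Fin (Fintype.card (ι × Fin (K + 1))) → ℤ := fun w k =>
    ⌊R * h (L w.1) (e.symm k).1 (e.symm k).2⌋ with hX
  set W : Ω × (Fin (K + 1) → Ω) → Γ × (Fin (K + 1) → Θ) × (Fin (K + 1) → ι → ℤ) := fun w =>
    (c w.1, (fun i => T (w.2 i)), fun i => D (w.2 i)) with hW
  have h2 : CH q (fun w i a => ⌊R * h (L w.1) i a⌋) W = CH q X W := by
    refine CH_congr h0 ?_ ?_ (fun _ _ _ _ hh => hh) (fun _ _ _ _ hh => hh)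
    · intro w w' _ _ hh
      simp only [Prod.mk.injEq] at hh
      funext k
      exact congrFun (congrFun hh.1 _) _
    · intro w w' _ _ hh
      simp only [Prod.mk.injEq] at hh
      funext i a
      have := congrFun hh.1 (e (i, a))
      simpa [hX] using this
  have h3 := CH_le_vec h0 hql.sum_one X W (fun w =>
      if G (fun i => T (w.2 i)) then
        (K + 1) * 2 ^ (K + u (fun i => T (w.2 i)) * K) * (2 * C₁) + 1
      else 2 * (R * B) + 1) (by
    intro w w' hw hw' hh k
    have e1 : (fun i => T (w.2 i)) = fun i => T (w'.2 i) := (Prod.ext_iff.mp (Prod.ext_iff.mp hh).2).1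
    have e2 : (fun i => D (w.2 i)) = fun i => D (w'.2 i) := (Prod.ext_iff.mp (Prod.ext_iff.mp hh).2).2
    set i := (e.symm k).1
    set a := (e.symm k).2
    split_ifs with hGw
    · refine floor_near ?_
      have h4 := coeff_near (K := K) (k₀ := u (fun i => T (w.2 i)))
        (θ := fun j => th (T (w.2 j)))
        (fun j => hth _ (LDA.cp_eq hp L (K + 1) hw j).2)
        (fun j j' hj => hG _ hGw j j' hj)
        (A := fun a => R * h (L w.1) i a) (A' := fun a => R * h (L w'.1) i a) (M := 2 * C₁)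
        (by
          intro j
          have a1 := LDA.cp_eq hp L (K + 1) hw j
          have a2 := LDA.cp_eq hp L (K + 1) hw' j
          have b1 := hD _ a1.2 i
          have b2 := hD _ a2.2 i
          rw [a1.1] at b1
          rw [a2.1] at b2
          have c1 : T (w'.2 j) = T (w.2 j) := (congrFun e1 j).symm
          have c2 : D (w'.2 j) = D (w.2 j) := (congrFun e2 j).symm
          rw [c1, c2] at b2
          have d1 : ∀ g : Fin (K + 1) → ℝ, ∑ a, R * g a * th (T (w.2 j)) ^ (a : ℕ) =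
              R * ∑ a, g a * th (T (w.2 j)) ^ (a : ℕ) := by
            intro g
            rw [Finset.mul_sum]
            exact Finset.sum_congr rfl fun a _ => by ring
          rw [d1, d1]
          have b1' := abs_le.mp b1
          have b2' := abs_le.mp b2
          rw [abs_le]
          constructor <;> linarith only [b1', b2']) a
      exact h4
    · refine floor_near ?_
      have a1 := hB _ (hfst.pos h0 hw) i a
      have a2 := hB _ (hfst.pos h0 hw') i a
      have a1' := abs_le.mp a1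
      have a2' := abs_le.mp a2
      rw [← mul_sub, abs_mul, abs_of_nonneg hR]
      have a3 : |h (L w.1) i a - h (L w'.1) i a| ≤ 2 * B := by
        rw [abs_le]
        constructor <;> linarith only [a1', a2']
      calc R * |h (L w.1) i a - h (L w'.1) i a| ≤ R * (2 * B) := mul_le_mul_of_nonneg_left a3 hR
        _ = 2 * (R * B) := by ring)
  rw [h2]
  refine h3.trans (le_of_eq ?_)
  rw [Fintype.card_prod, Fintype.card_fin]
  push_cast
  congr 1
  refine congrArg (Ex q) ?_
  funext w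
  split_ifs <;> rfl

open Classical in
lemma Ex_ite_le {Ω : Type} [Fintype Ω] {q : Ω → ℝ} (hq : IsLaw q) (G : Ω → Prop) {a b : ℝ}
    (ha : 0 ≤ a) : Ex q (fun w => if G w then a else b) ≤ a + Pe q (fun w => ¬ G w) * b := by
  have h1 : ∀ w, q w * (if G w then a else b) ≤ q w * a + (if ¬ G w then q w else 0) * b := by
    intro w
    by_cases h : G w
    · simp [h]
    · have := mul_nonneg (hq.nonneg w) ha
      simp only [h, if_false, not_false_eq_true, if_true]
      linarith only [this]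
  unfold Ex
  refine (Finset.sum_le_sum fun w _ => h1 w).trans (le_of_eq ?_)
  rw [Finset.sum_add_distrib, ← Finset.sum_mul, hq.sum_one, one_mul, ← Finset.sum_mul, Pe_eq]
  congr 2
  exact Finset.sum_congr rfl fun i _ => by split_ifs <;> rfl

/-- **The F-step**: the copies of the time are separated by `2 ^ (-k₀)` outside a small event. -/
theorem fst_sep (hp : IsLaw p) (L : Ω → Λ) (c : Ω → Γ) (hc : Det p L c) (T : Ω → Θ) (th : Θ → ℝ)
    (D : Ω → ι → ℤ) (K : ℕ) (h : Λ → ι → Fin (K + 1) → ℝ) {R B C₁ : ℝ} (hR : 0 ≤ R)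
    (hC : 0 ≤ C₁)
    (hth : ∀ ω, 0 < p ω → |th (T ω)| ≤ 1) (hB : ∀ ω, 0 < p ω → ∀ i a, |h (L ω) i a| ≤ B)
    (hD : ∀ ω, 0 < p ω → ∀ i, |(D ω i : ℝ) - R * ∑ a, h (L ω) i a * th (T ω) ^ (a : ℕ)| ≤ C₁)
    (k₀ : ℕ) :
    CH p (fun ω i a => ⌊R * h (L ω) i a⌋) c ≤
      (K + 1) * (CH p D (fun ω => (c ω, T ω)) + Pool.KVA.MI p T L c) +
      (Fintype.card ι * (K + 1)) *
        (Real.log (2 * ((K + 1) * 2 ^ (K + k₀ * K) * (2 * C₁) + 1) + 1) +
        Pe (LDA.cp p L (K + 1)) (fun w => ¬ ∀ i j : Fin (K + 1), i ≠ j →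
          (1 : ℝ) / 2 ^ k₀ ≤ |th (T (w.2 i)) - th (T (w.2 j))|) *
          Real.log (2 * (2 * (R * B) + 1) + 1)) := by
  classical
  refine (fst_core hp L c hc T th D K h hR hth hB hD
    (fun τ => ∀ i j : Fin (K + 1), i ≠ j → (1 : ℝ) / 2 ^ k₀ ≤ |th (τ i) - th (τ j)|)
    (fun _ => k₀) (fun τ h => h)).trans ?_
  refine add_le_add le_rfl (mul_le_mul_of_nonneg_left ?_ (by positivity))
  refine Ex_ite_le (LDA.cp_law hp L (K + 1)) (fun w => ∀ i j : Fin (K + 1), i ≠ j →
          (1 : ℝ) / 2 ^ k₀ ≤ |th (T (w.2 i)) - th (T (w.2 j))|) ?_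
  refine Real.log_nonneg ?_
  have : (0 : ℝ) ≤ (K + 1) * 2 ^ (K + k₀ * K) * (2 * C₁) := by positivity
  linarith only [this]

/-! ### Separation of the copies -/

/-- The digits of two copies of the time. -/
theorem pair_en (hp : IsLaw p) (L : Ω → Λ) (d : Ω → ℕ) {m n : ℕ} {e : ℝ}
    (hd : ∀ ω, d ω < 2 ^ m) (he : m * Real.log 2 - e ≤ CH p d L) {i k : Fin n} (hik : i ≠ k) :
    Ex (LDA.cp p L n) (fun w => Real.log (((2 : ℝ) ^ m) /
      (Pool.KEND.dd (d (w.2 i)) (d (w.2 k)) : ℝ))) ≤ 2 * (n * e + Real.log 6) :=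
  Pool.KBX.LDA.pair_energy hp L d m n hd he hik

lemma dd_le {m x y : ℕ} (hx : x < 2 ^ m) (hy : y < 2 ^ m) : Pool.KEND.dd x y ≤ 2 ^ m := by
  unfold Pool.KEND.dd
  have : 0 < 2 ^ m := by positivity
  omega

lemma log_dd_nonneg {m x y : ℕ} (hx : x < 2 ^ m) (hy : y < 2 ^ m) :
    0 ≤ Real.log (((2 : ℝ) ^ m) / (Pool.KEND.dd x y : ℝ)) := by
  refine Real.log_nonneg ?_
  have h1 : (0 : ℝ) < Pool.KEND.dd x y := by exact_mod_cast Pool.KEND.one_le_dd x y
  rw [one_le_div h1]
  exact_mod_cast dd_le hx hy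

/-- If the truncated distance is at least `2 ^ (m - k₀)` and `k₀ < m` the numbers are distant. -/
lemma dd_sep {m k₀ x y : ℕ} (hk : k₀ ≤ m) (hxy : x ≠ y ∨ k₀ < m)
    (h : Real.log (((2 : ℝ) ^ m) / (Pool.KEND.dd x y : ℝ)) ≤ k₀ * Real.log 2) :
    (1 : ℝ) / 2 ^ k₀ ≤ |(x : ℝ) / 2 ^ m - (y : ℝ) / 2 ^ m| := by
  have h1 : (0 : ℝ) < Pool.KEND.dd x y := by exact_mod_cast Pool.KEND.one_le_dd x y
  have h2 : ((2 : ℝ) ^ m) / (Pool.KEND.dd x y : ℝ) ≤ 2 ^ k₀ := by
    have h3 : (0 : ℝ) < ((2 : ℝ) ^ m) / (Pool.KEND.dd x y : ℝ) := by positivity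
    rw [← Real.log_pow] at h
    exact (Real.log_le_log_iff h3 (by positivity)).mp h
  rw [div_le_iff₀ h1] at h2
  have h4 : 2 ^ m ≤ 2 ^ k₀ * Pool.KEND.dd x y := by exact_mod_cast h2
  have h5 : 2 ^ m = 2 ^ k₀ * 2 ^ (m - k₀) := by rw [← pow_add, Nat.add_sub_cancel' hk]
  have h6 : 2 ^ (m - k₀) ≤ Pool.KEND.dd x y := by
    rw [h5] at h4
    exact Nat.le_of_mul_le_mul_left h4 (by positivity)
  have h7 : x ≠ y := by
    rcases hxy with h | h
    · exact h
    · intro he
      rw [he] at h6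
      unfold Pool.KEND.dd at h6
      simp only [Nat.sub_self, max_self] at h6
      have : 1 < 2 ^ (m - k₀) := Nat.one_lt_two_pow (by omega)
      omega
  have h8 : (2 : ℝ) ^ (m - k₀) ≤ |(x : ℝ) - y| := by
    unfold Pool.KEND.dd at h6
    rcases lt_or_gt_of_ne h7 with hlt | hgt
    · have h9 : 2 ^ (m - k₀) + x ≤ y := by
        have : 0 < 2 ^ (m - k₀) := by positivity
        omega
      have h10 : ((2 : ℝ) ^ (m - k₀)) + x ≤ y := by exact_mod_cast h9
      rw [abs_sub_comm]
      refine le_trans ?_ (le_abs_self _)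
      linarith only [h10]
    · have h9 : 2 ^ (m - k₀) + y ≤ x := by
        have : 0 < 2 ^ (m - k₀) := by positivity
        omega
      have h10 : ((2 : ℝ) ^ (m - k₀)) + y ≤ x := by exact_mod_cast h9
      refine le_trans ?_ (le_abs_self _)
      linarith only [h10]
  rw [← sub_div, abs_div, abs_of_pos (by positivity : (0 : ℝ) < 2 ^ m), div_le_div_iff₀
    (by positivity) (by positivity), one_mul]
  calc (2 : ℝ) ^ m = 2 ^ (m - k₀) * 2 ^ k₀ := by rw [← pow_add, Nat.sub_add_cancel hk]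
    _ ≤ |(x : ℝ) - y| * 2 ^ k₀ := mul_le_mul_of_nonneg_right h8 (by positivity)

lemma Pe_markov {Ω : Type} [Fintype Ω] {p : Ω → ℝ} (hp : IsLaw p) (f : Ω → ℝ)
    (hf : ∀ ω, 0 < p ω → 0 ≤ f ω) {θ : ℝ}
    (hθ : 0 < θ) : Pe p (fun ω => θ < f ω) ≤ Ex p f / θ := by
  classical
  rw [le_div_iff₀ hθ, Pe_eq, Finset.sum_mul]
  unfold Ex
  refine Finset.sum_le_sum fun ω _ => ?_
  rcases (hp.nonneg ω).lt_or_eq with h | h
  · by_cases h1 : θ < f ω
    · rw [if_pos h1]
      exact mul_le_mul_of_nonneg_left h1.le (hp.nonneg ω)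
    · rw [if_neg h1, zero_mul]
      exact mul_nonneg h.le (hf ω h)
  · rw [← h]
    simp

/-- **The copies are separated.** -/
theorem sep_le (hp : IsLaw p) (L : Ω → Λ) (T : Ω → Θ) (d : Θ → ℕ) {m k₀ n : ℕ} {e : ℝ}
    (hk0 : 1 ≤ k₀) (hk : k₀ < m)
    (hd : ∀ ω, d (T ω) < 2 ^ m) (he : m * Real.log 2 - e ≤ CH p (fun ω => d (T ω)) L) :
    Pe (LDA.cp p L n) (fun w => ¬ ∀ i j : Fin n, i ≠ j →
      (1 : ℝ) / 2 ^ k₀ ≤ |(d (T (w.2 i)) : ℝ) / 2 ^ m - (d (T (w.2 j)) : ℝ) / 2 ^ m|) ≤
      n ^ 2 * (2 * (n * e + Real.log 6) / (k₀ * Real.log 2)) := by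
  classical
  set q := LDA.cp p L n with hq
  have hql : IsLaw q := LDA.cp_law hp L n
  have hlog : 0 < Real.log 2 := Real.log_pos one_lt_two
  have hk1 : (0 : ℝ) < k₀ * Real.log 2 := by
    have : (1 : ℝ) ≤ k₀ := by exact_mod_cast hk0
    positivity
  set A : Fin n → Fin n → Ω × (Fin n → Ω) → Prop := fun i j w => i ≠ j ∧
    (k₀ : ℝ) * Real.log 2 < Real.log (((2 : ℝ) ^ m) /
      (Pool.KEND.dd (d (T (w.2 i))) (d (T (w.2 j))) : ℝ)) with hA
  have h1 : Sub (fun w : Ω × (Fin n → Ω) => ¬ ∀ i j : Fin n, i ≠ j →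
      (1 : ℝ) / 2 ^ k₀ ≤ |(d (T (w.2 i)) : ℝ) / 2 ^ m - (d (T (w.2 j)) : ℝ) / 2 ^ m|)
      (fun w => ∃ i j, A i j w) := by
    intro w hw
    push Not at hw
    obtain ⟨i, j, hij, hlt⟩ := hw
    refine ⟨i, j, hij, ?_⟩
    by_contra hcon
    push Not at hcon
    exact absurd (dd_sep hk.le (Or.inr hk) hcon) (not_le.mpr hlt)
  refine (Pe_mono hql h1).trans ?_
  have h2 : Pe q (fun w => ∃ i j, A i j w) ≤ ∑ i, ∑ j, Pe q (A i j) := by
    rw [Pe_eq]
    have : ∑ i, ∑ j, Pe q (A i j) = ∑ w, ∑ i, ∑ j, (if A i j w then q w else 0) := by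
      have a1 : ∑ i, ∑ j, Pe q (A i j) = ∑ i, ∑ j, ∑ w, (if A i j w then q w else 0) :=
        Finset.sum_congr rfl fun i _ => Finset.sum_congr rfl fun j _ =>
          (Pe_eq _ _).trans (Finset.sum_congr rfl fun w _ => by congr)
      rw [a1]
      refine (Finset.sum_congr rfl fun i _ => ?_).trans Finset.sum_comm
      exact Finset.sum_comm
    rw [this]
    refine Finset.sum_le_sum fun w _ => ?_
    have hnn : ∀ i j, 0 ≤ (if A i j w then q w else 0) := by
      intro i j
      split_ifs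
      · exact hql.nonneg w
      · exact le_rfl
    split_ifs with hex
    · obtain ⟨i, j, hij⟩ := hex
      calc q w = if A i j w then q w else 0 := by rw [if_pos hij]
        _ ≤ ∑ j, (if A i j w then q w else 0) :=
            Finset.single_le_sum (fun j _ => hnn i j) (Finset.mem_univ j)
        _ ≤ ∑ i, ∑ j, (if A i j w then q w else 0) :=
            Finset.single_le_sum (f := fun i => ∑ j, (if A i j w then q w else 0))
              (fun i _ => Finset.sum_nonneg fun j _ => hnn i j) (Finset.mem_univ i)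
    · exact Finset.sum_nonneg fun i _ => Finset.sum_nonneg fun j _ => hnn i j
  refine h2.trans ?_
  have h3 : ∀ i j, Pe q (A i j) ≤ 2 * (n * e + Real.log 6) / (k₀ * Real.log 2) := by
    intro i j
    by_cases hij : i = j
    · have h4 : Pe q (A i j) = 0 := by
        rw [Pe_eq]
        refine Finset.sum_eq_zero fun w _ => ?_
        rw [if_neg]
        intro h
        exact h.1 hij
      rw [h4]
      have h5 : 0 ≤ e := by
        have h6 := CH_le_card hp.nonneg hp.sum_one (fun ω => d (T ω)) L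
          (fun _ => Finset.range (2 ^ m)) (fun ω _ => Finset.mem_range.mpr (hd ω))
        simp only [Finset.card_range, Nat.cast_pow, Nat.cast_ofNat, Real.log_pow] at h6
        rw [Ex_const hp.sum_one] at h6
        linarith only [he, h6]
      have : 0 ≤ Real.log 6 := Real.log_nonneg (by norm_num)
      positivity
    · have h4 := pair_en hp L (fun ω => d (T ω)) (n := n) hd he hij
      have h5 := Pe_markov hql (fun w => Real.log (((2 : ℝ) ^ m) /
        (Pool.KEND.dd (d (T (w.2 i))) (d (T (w.2 j))) : ℝ)))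
        (fun w _ => log_dd_nonneg (hd _) (hd _)) hk1
      refine (Pe_mono hql ?_).trans (h5.trans ?_)
      · intro w hw
        exact hw.2
      · exact div_le_div_of_nonneg_right h4 hk1.le
  calc ∑ i : Fin n, ∑ j : Fin n, Pe q (A i j) ≤
      ∑ _i : Fin n, ∑ _j : Fin n, 2 * (n * e + Real.log 6) / (k₀ * Real.log 2) :=
        Finset.sum_le_sum fun i _ => Finset.sum_le_sum fun j _ => h3 i j
    _ = n ^ 2 * (2 * (n * e + Real.log 6) / (k₀ * Real.log 2)) := by
        simp only [Finset.sum_const, Finset.card_univ, Fintype.card_fin, nsmul_eq_mul]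
        ring

/-- **The F-step**, energy form: no separation hypothesis and no exceptional event. The `m` digits
`d` of the time have deficit at most `e` given the label. -/
theorem fst_en (hp : IsLaw p) (L : Ω → Λ) (c : Ω → Γ) (hc : Det p L c) (T : Ω → Θ) (d : Θ → ℕ)
    {m : ℕ} {e : ℝ} (hd : ∀ ω, d (T ω) < 2 ^ m)
    (he : m * Real.log 2 - e ≤ CH p (fun ω => d (T ω)) L)
    (D : Ω → ι → ℤ) (K : ℕ) (h : Λ → ι → Fin (K + 1) → ℝ) {R B C₁ A : ℝ} (hR : 0 ≤ R)
    (hC : 0 ≤ C₁) (hB : ∀ ω, 0 < p ω → ∀ i a, |h (L ω) i a| ≤ B)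
    (hD : ∀ ω, 0 < p ω → ∀ i,
      |(D ω i : ℝ) - R * ∑ a, h (L ω) i a * ((d (T ω) : ℝ) / 2 ^ m) ^ (a : ℕ)| ≤ C₁)
    (hA0 : 0 ≤ A) (hA : Real.log (2 * (2 * (R * B) + 1) + 1) ≤ A * (m * Real.log 2)) :
    CH p (fun ω i a => ⌊R * h (L ω) i a⌋) c ≤
      (K + 1) * (CH p D (fun ω => (c ω, T ω)) + Pool.KVA.MI p T L c) +
      (Fintype.card ι * (K + 1)) * (Real.log (2 * ((K + 1) * 2 ^ K * (2 * C₁) + 1) + 1) +
        (K + A) * ((K + 1) ^ 2 * (2 * ((K + 1) * e + Real.log 6) + Real.log 2))) := by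
  classical
  have hlog : 0 < Real.log 2 := Real.log_pos one_lt_two
  set dij : (Fin (K + 1) → Θ) → Fin (K + 1) → Fin (K + 1) → ℕ := fun τ i j =>
    Pool.KEND.dd (d (τ i)) (d (τ j)) with hdij
  set u : (Fin (K + 1) → Θ) → ℕ := fun τ => ∑ i, ∑ j,
    if i = j then 0 else m - Nat.log 2 (dij τ i j) with hu
  set G : (Fin (K + 1) → Θ) → Prop := fun τ => (∀ i, d (τ i) < 2 ^ m) ∧
    ∀ i j, i ≠ j → d (τ i) ≠ d (τ j) with hGdef
  have hlogle : ∀ τ i j, (∀ i, d (τ i) < 2 ^ m) → Nat.log 2 (dij τ i j) ≤ m := by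
    intro τ i j hτ
    have h1 := dd_le (hτ i) (hτ j)
    have h2 := Nat.log_mono_right (b := 2) h1
    rwa [Nat.log_pow (by norm_num)] at h2
  have hle_u : ∀ τ i j, i ≠ j → m - Nat.log 2 (dij τ i j) ≤ u τ := by
    intro τ i j hij
    calc m - Nat.log 2 (dij τ i j) = if i = j then 0 else m - Nat.log 2 (dij τ i j) := by
          rw [if_neg hij]
      _ ≤ ∑ j, if i = j then 0 else m - Nat.log 2 (dij τ i j) :=
          Finset.single_le_sum (f := fun j => if i = j then 0 else m - Nat.log 2 (dij τ i j))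
            (fun j _ => Nat.zero_le _) (Finset.mem_univ j)
      _ ≤ u τ := Finset.single_le_sum
            (f := fun i => ∑ j, if i = j then 0 else m - Nat.log 2 (dij τ i j))
            (fun i _ => Nat.zero_le _) (Finset.mem_univ i)
  have hth : ∀ ω, 0 < p ω → |((d (T ω) : ℕ) : ℝ) / 2 ^ m| ≤ 1 := by
    intro ω _
    rw [abs_of_nonneg (by positivity), div_le_one (by positivity)]
    exact_mod_cast (hd ω).le
  have hGs : ∀ τ, G τ → ∀ i j, i ≠ j →
      (1 : ℝ) / 2 ^ u τ ≤ |(d (τ i) : ℝ) / 2 ^ m - (d (τ j) : ℝ) / 2 ^ m| := by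
    intro τ hτ i j hij
    have h1 : (1 : ℝ) / 2 ^ (m - Nat.log 2 (dij τ i j)) ≤
        |(d (τ i) : ℝ) / 2 ^ m - (d (τ j) : ℝ) / 2 ^ m| := by
      refine dd_sep (Nat.sub_le _ _) (Or.inl (hτ.2 i j hij)) ?_
      have h2 : 2 ^ Nat.log 2 (dij τ i j) ≤ dij τ i j :=
        Nat.pow_log_le_self 2 (by
          have := Pool.KEND.one_le_dd (d (τ i)) (d (τ j))
          simp only [hdij]
          omega)
      have h3 : (0 : ℝ) < dij τ i j := by
        exact_mod_cast Pool.KEND.one_le_dd (d (τ i)) (d (τ j))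
      rw [← Real.log_pow]
      refine Real.log_le_log (by positivity) ?_
      rw [div_le_iff₀ h3]
      have h4 : ((2 : ℝ) ^ Nat.log 2 (dij τ i j)) ≤ dij τ i j := by exact_mod_cast h2
      calc (2 : ℝ) ^ m = 2 ^ (m - Nat.log 2 (dij τ i j)) * 2 ^ Nat.log 2 (dij τ i j) := by
            rw [← pow_add, Nat.sub_add_cancel (hlogle τ i j hτ.1)]
        _ ≤ _ := mul_le_mul_of_nonneg_left h4 (by positivity)
    refine le_trans ?_ h1
    exact one_div_le_one_div_of_le (by positivity)
      (pow_le_pow_right₀ (by norm_num) (hle_u τ i j hij))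
  refine (fst_core hp L c hc T (fun θ => (d θ : ℝ) / 2 ^ m) D K h hR hth hB hD G u hGs).trans ?_
  refine add_le_add le_rfl (mul_le_mul_of_nonneg_left ?_ (by positivity))
  set q := LDA.cp p L (K + 1) with hq
  have hql : IsLaw q := LDA.cp_law hp L (K + 1)
  set c0 : ℝ := Real.log (2 * ((K + 1) * 2 ^ K * (2 * C₁) + 1) + 1) with hc0
  have hc0n : 0 ≤ c0 := by
    refine Real.log_nonneg ?_
    have : (0 : ℝ) ≤ (K + 1) * 2 ^ K * (2 * C₁) := by positivity
    linarith only [this]
  set ℓ : Fin (K + 1) → Fin (K + 1) → Ω × (Fin (K + 1) → Ω) → ℝ := fun i j w =>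
    if i = j then 0 else Real.log (((2 : ℝ) ^ m) /
      (Pool.KEND.dd (d (T (w.2 i))) (d (T (w.2 j))) : ℝ)) + Real.log 2 with hℓ
  have hℓ0 : ∀ i j w, 0 ≤ ℓ i j w := by
    intro i j w
    simp only [hℓ]
    split_ifs
    · exact le_rfl
    · exact add_nonneg (log_dd_nonneg (hd _) (hd _)) hlog.le
  have hpt : ∀ w : Ω × (Fin (K + 1) → Ω),
      (if G (fun i => T (w.2 i)) then
          Real.log (2 * ((K + 1) * 2 ^ (K + u (fun i => T (w.2 i)) * K) * (2 * C₁) + 1) + 1)
        else Real.log (2 * (2 * (R * B) + 1) + 1)) ≤ c0 + (K + A) * ∑ i, ∑ j, ℓ i j w := by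
    intro w
    have hS0 : 0 ≤ ∑ i, ∑ j, ℓ i j w :=
      Finset.sum_nonneg fun i _ => Finset.sum_nonneg fun j _ => hℓ0 i j w
    split_ifs with hg
    · have h1 : (2 * ((K + 1) * 2 ^ (K + u (fun i => T (w.2 i)) * K) * (2 * C₁) + 1) + 1 : ℝ) ≤
          2 ^ (u (fun i => T (w.2 i)) * K) * (2 * ((K + 1) * 2 ^ K * (2 * C₁) + 1) + 1) := by
        have h2 : (1 : ℝ) ≤ 2 ^ (u (fun i => T (w.2 i)) * K) := one_le_pow₀ (by norm_num)
        rw [pow_add]
        nlinarith only [h2]
      have h3 : (0 : ℝ) ≤ (K + 1) * 2 ^ (K + u (fun i => T (w.2 i)) * K) * (2 * C₁) := by positivity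
      have h4 : (0 : ℝ) ≤ (K + 1) * 2 ^ K * (2 * C₁) := by positivity
      have h5 := Real.log_le_log (by linarith only [h3]) h1
      rw [Real.log_mul (by positivity) (by linarith only [h4]), Real.log_pow] at h5
      have h6 : ((u (fun i => T (w.2 i)) : ℕ) : ℝ) * Real.log 2 ≤ ∑ i, ∑ j, ℓ i j w := by
        simp only [hu]
        push_cast
        rw [Finset.sum_mul]
        refine Finset.sum_le_sum fun i _ => ?_
        rw [Finset.sum_mul]
        refine Finset.sum_le_sum fun j _ => ?_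
        simp only [hℓ]
        by_cases hij : i = j
        · simp [hij]
        · rw [if_neg hij, if_neg hij, Nat.cast_sub (hlogle _ i j hg.1)]
          have h7 : dij (fun i => T (w.2 i)) i j <
              2 ^ (Nat.log 2 (dij (fun i => T (w.2 i)) i j) + 1) :=
            Nat.lt_pow_succ_log_self (by norm_num) _
          have h8 : (0 : ℝ) < dij (fun i => T (w.2 i)) i j := by
            exact_mod_cast Pool.KEND.one_le_dd (d (T (w.2 i))) (d (T (w.2 j)))
          have h9 : Real.log (dij (fun i => T (w.2 i)) i j : ℝ) ≤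
              (Nat.log 2 (dij (fun i => T (w.2 i)) i j) + 1) * Real.log 2 := by
            have h10 : ((dij (fun i => T (w.2 i)) i j : ℕ) : ℝ) ≤
                2 ^ (Nat.log 2 (dij (fun i => T (w.2 i)) i j) + 1) := by exact_mod_cast h7.le
            have h11 := Real.log_le_log h8 h10
            rw [Real.log_pow] at h11
            push_cast at h11
            exact h11
          rw [Real.log_div (by positivity) h8.ne', Real.log_pow]
          simp only [hdij] at h9 ⊢
          nlinarith only [h9]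
      have h12 : (((u (fun i => T (w.2 i)) * K : ℕ) : ℝ)) * Real.log 2 ≤
          K * ∑ i, ∑ j, ℓ i j w := by
        push_cast
        have hK : (0 : ℝ) ≤ K := Nat.cast_nonneg K
        nlinarith only [h6]
      have h13 : 0 ≤ A * ∑ i, ∑ j, ℓ i j w := mul_nonneg hA0 hS0
      linarith only [h5, h12, h13]
    · have hex : ∃ i j : Fin (K + 1), i ≠ j ∧ d (T (w.2 i)) = d (T (w.2 j)) := by
        by_contra hcon
        push Not at hcon
        exact hg ⟨fun i => hd _, hcon⟩
      obtain ⟨i, j, hij, heq⟩ := hex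
      have h1 : (m : ℝ) * Real.log 2 ≤ ℓ i j w := by
        simp only [hℓ]
        rw [if_neg hij, heq]
        have h2 : Pool.KEND.dd (d (T (w.2 j))) (d (T (w.2 j))) = 1 := by
          unfold Pool.KEND.dd
          simp
        rw [h2, Nat.cast_one, div_one, Real.log_pow]
        linarith only [hlog]
      have h2 : ℓ i j w ≤ ∑ i, ∑ j, ℓ i j w := by
        calc ℓ i j w ≤ ∑ j, ℓ i j w :=
              Finset.single_le_sum (f := fun j => ℓ i j w) (fun j _ => hℓ0 i j w)
                (Finset.mem_univ j)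
          _ ≤ ∑ i, ∑ j, ℓ i j w :=
              Finset.single_le_sum (f := fun i => ∑ j, ℓ i j w)
                (fun i _ => Finset.sum_nonneg fun j _ => hℓ0 i j w) (Finset.mem_univ i)
      have h3 : A * ((m : ℝ) * Real.log 2) ≤ A * ∑ i, ∑ j, ℓ i j w :=
        mul_le_mul_of_nonneg_left (h1.trans h2) hA0
      have h4 : 0 ≤ (K : ℝ) * ∑ i, ∑ j, ℓ i j w := mul_nonneg (Nat.cast_nonneg K) hS0
      linarith only [hA, hc0n, h3, h4]
  have he0 : 0 ≤ e := by
    have h6 := CH_le_card hp.nonneg hp.sum_one (fun ω => d (T ω)) L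
      (fun _ => Finset.range (2 ^ m)) (fun ω _ => Finset.mem_range.mpr (hd ω))
    simp only [Finset.card_range, Nat.cast_pow, Nat.cast_ofNat, Real.log_pow] at h6
    rw [Ex_const hp.sum_one] at h6
    linarith only [he, h6]
  have hl6 : 0 ≤ Real.log 6 := Real.log_nonneg (by norm_num)
  have hE : ∀ i j, Ex q (ℓ i j) ≤ 2 * ((K + 1) * e + Real.log 6) + Real.log 2 := by
    intro i j
    by_cases hij : i = j
    · have : ℓ i j = fun _ => 0 := by
        funext w
        simp only [hℓ, if_pos hij]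
      rw [this, Ex_const hql.sum_one]
      positivity
    · have : ℓ i j = fun w => Real.log (((2 : ℝ) ^ m) /
          (Pool.KEND.dd (d (T (w.2 i))) (d (T (w.2 j))) : ℝ)) + (fun _ => Real.log 2) w := by
        funext w
        simp only [hℓ, if_neg hij]
      rw [this, Ex_add, Ex_const hql.sum_one]
      have h4 := pair_en hp L (fun ω => d (T ω)) (n := K + 1) hd he hij
      push_cast at h4
      linarith only [h4]
  have h5 : Ex q (fun w => c0 + (K + A) * ∑ i, ∑ j, ℓ i j w) =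
      c0 + (K + A) * ∑ i, ∑ j, Ex q (ℓ i j) := by
    rw [Ex_add q (fun _ => c0), Ex_const hql.sum_one, Ex_smul]
    congr 2
    unfold Ex
    simp_rw [Finset.mul_sum]
    rw [Finset.sum_comm]
    refine Finset.sum_congr rfl fun i _ => ?_
    exact Finset.sum_comm
  refine le_trans (b := Ex q (fun w => c0 + (K + A) * ∑ i, ∑ j, ℓ i j w))
    (Ex_mono hql.nonneg fun w _ => le_trans (le_of_eq (by congr)) (hpt w)) ?_
  rw [h5]
  refine add_le_add le_rfl (mul_le_mul_of_nonneg_left ?_ (by positivity))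
  calc ∑ i, ∑ j, Ex q (ℓ i j) ≤ ∑ _i : Fin (K + 1), ∑ _j : Fin (K + 1),
        (2 * ((K + 1) * e + Real.log 6) + Real.log 2) :=
        Finset.sum_le_sum fun i _ => Finset.sum_le_sum fun j _ => hE i j
    _ = (K + 1) ^ 2 * (2 * ((K + 1) * e + Real.log 6) + Real.log 2) := by
        simp only [Finset.sum_const, Finset.card_univ, Fintype.card_fin, nsmul_eq_mul]
        push_cast
        ring

end count

end Pool.SLO.FST
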